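import Mathlib

set_option autoImplicit false

open Filter Topology

namespace Pool.Agent.H973Z.Santalo

/-- sign attached to a Boolean -/
def sg (b : Bool) : ℝ := if b then 1 else -1

lemma sg_mul_self (b : Bool) : sg b * sg b = 1 := by cases b <;> simp [sg]

lemma sg_ne {a b : Bool} (h : a ≠ b) : sg b = - sg a := by
  cases a <;> cases b <;> simp_all [sg]

lemma omega_ex {n : ℕ} (k : Fin (n + 2)) :
    ∃ ω : Fin (n + 2) → ℝ, ∀ i, i ≠ k → ω (i + 1) - ω i = 1 := by
  refine ⟨fun i => ((i - (k + 1)).val : ℝ), fun i hi => ?_⟩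
  have h1 : i + 1 - (k + 1) = (i - (k + 1)) + 1 := by abel
  have h2 : i - (k + 1) ≠ Fin.last (n + 1) := by
    intro h
    have h3 : (i - (k + 1)) + 1 = 0 := by rw [h]; exact Fin.last_add_one _
    have h4 : (i - (k + 1)) + 1 = i - k := by abel
    rw [h4, sub_eq_zero] at h3
    exact hi h3
  have h5 : ((i - (k + 1)) + 1).val = (i - (k + 1)).val + 1 :=
    Fin.val_add_one_of_lt (Fin.lt_last_iff_ne_last.mpr h2)
  simp only [h1, h5]
  push_cast
  ring

/-- first-order quantity -/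
def D {n : ℕ} (τ : (Fin (n + 2) → Bool) → ℝ) (η ν : (Fin (n + 2) → Bool) → Fin (n + 2) → ℝ)
    (κ : ℝ) (σ σ' : Fin (n + 2) → Bool) (i : Fin (n + 2)) : ℝ :=
  (η σ (i + 1) - η σ i) - κ * (η σ' (i + 1) - η σ' i) - (ν σ' (i + 1) - ν σ' i) * (τ σ - κ * τ σ')

lemma hier {n : ℕ} (S : Finset (Fin (n + 2))) :
    ∃ (τ : (Fin (n + 2) → Bool) → ℝ) (η ν : (Fin (n + 2) → Bool) → Fin (n + 2) → ℝ),
      (∀ σ σ', (∀ k ∈ S, σ k = σ' k) → τ σ = τ σ' ∧ η σ = η σ' ∧ ν σ = ν σ') ∧
      (∀ σ σ' i, (∃ k ∈ S, σ k ≠ σ' k) → σ i = σ' i → 0 < D τ η ν 1 σ σ' i) := by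
  induction S using Finset.induction_on with
  | empty => exact ⟨fun _ => 0, fun _ _ => 0, fun _ _ => 0, by simp, by simp⟩
  | insert k S hk ih =>
    obtain ⟨τ, η, ν, h1, h2⟩ := ih
    obtain ⟨ω, hω⟩ := omega_ex k
    let τ' : ℝ → (Fin (n + 2) → Bool) → ℝ := fun θ σ => τ σ + θ * sg (σ k)
    let η' : ℝ → (Fin (n + 2) → Bool) → Fin (n + 2) → ℝ :=
      fun θ σ i => η σ i + θ * sg (σ k) * ν σ i
    let ν' : ℝ → (Fin (n + 2) → Bool) → Fin (n + 2) → ℝ :=
      fun θ σ i => ν σ i + θ * sg (σ k) * ω i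
    have hev : ∀ᶠ θ in 𝓝 (0 : ℝ), ∀ σ σ' i, (∃ k ∈ S, σ k ≠ σ' k) → σ i = σ' i →
        0 < D (τ' θ) (η' θ) (ν' θ) 1 σ σ' i := by
      simp only [eventually_all]
      intro σ σ' i hS hi
      have hc : Continuous fun θ => D (τ' θ) (η' θ) (ν' θ) 1 σ σ' i := by
        simp only [D, τ', η', ν']
        fun_prop
      have h0 : 0 < D (τ' 0) (η' 0) (ν' 0) 1 σ σ' i := by
        have := h2 σ σ' i hS hi
        simpa [D, τ', η', ν'] using this
      exact hc.continuousAt.eventually (lt_mem_nhds h0)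
    obtain ⟨θ, hθ, hθ0⟩ := ((hev.filter_mono nhdsWithin_le_nhds).and
      (self_mem_nhdsWithin : Set.Ioi (0 : ℝ) ∈ 𝓝[>] (0 : ℝ))).exists
    have hθ0' : 0 < θ := hθ0
    refine ⟨τ' θ, η' θ, ν' θ, ?_, ?_⟩
    · intro σ σ' h
      obtain ⟨a1, a2, a3⟩ := h1 σ σ' (fun l hl => h l (Finset.mem_insert_of_mem hl))
      have a4 : σ k = σ' k := h k (Finset.mem_insert_self _ _)
      refine ⟨?_, ?_, ?_⟩
      · simp only [τ', a1, a4]
      · funext i; simp only [η', a2, a3, a4]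
      · funext i; simp only [ν', a3, a4]
    · intro σ σ' i hS hi
      by_cases hS' : ∃ k ∈ S, σ k ≠ σ' k
      · exact hθ σ σ' i hS' hi
      · push Not at hS'
        obtain ⟨a1, a2, a3⟩ := h1 σ σ' hS'
        obtain ⟨l, hl, hl'⟩ := hS
        have hlk : l = k := by
          rcases Finset.mem_insert.mp hl with h | h
          · exact h
          · exact absurd (hS' l h) hl'
        subst hlk
        have hil : i ≠ l := by rintro rfl; exact hl' hi
        have hs := sg_ne hl'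
        have hw := hω i hil
        have hss := sg_mul_self (σ l)
        have : D (τ' θ) (η' θ) (ν' θ) 1 σ σ' i = 2 * θ ^ 2 := by
          simp only [D, τ', η', ν', a1, a2, a3, hs]
          have e : ω (i + 1) = ω i + 1 := by linarith
          rw [e]
          linear_combination (2 * θ ^ 2) * hss
        rw [this]
        positivity

lemma hier2 (n : ℕ) :
    ∃ (τ : (Fin (n + 2) → Bool) → ℝ) (η ν : (Fin (n + 2) → Bool) → Fin (n + 2) → ℝ),
      (∀ σ σ' i, σ ≠ σ' → σ i = σ' i → 0 < D τ η ν 1 σ σ' i) ∧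
      (∀ σ σ' i, i ≠ 0 → 0 < D τ η ν (-1) σ σ' i) := by
  obtain ⟨τ, η, ν, -, h2⟩ := hier (n := n) Finset.univ
  obtain ⟨ω, hω⟩ := omega_ex (0 : Fin (n + 2))
  have hev : ∀ᶠ M in (atTop : Filter ℝ), ∀ σ σ' i, 0 < D τ η ν (-1) σ σ' i + 2 * M := by
    simp only [eventually_all]
    intro σ σ' i
    filter_upwards [eventually_gt_atTop (|D τ η ν (-1) σ σ' i|)] with M hM
    have := neg_abs_le (D τ η ν (-1) σ σ' i)
    have := abs_nonneg (D τ η ν (-1) σ σ' i)
    linarith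
  obtain ⟨M, hM⟩ := hev.exists
  refine ⟨τ, fun σ i => η σ i + M * ω i, ν, ?_, ?_⟩
  · intro σ σ' i hne hi
    have h := h2 σ σ' i (by
      by_contra hc
      push Not at hc
      exact hne (funext fun k => hc k (Finset.mem_univ _))) hi
    simp only [D] at h ⊢
    linarith
  · intro σ σ' i hi
    have h := hM σ σ' i
    have hw := hω i hi
    simp only [D] at h ⊢
    have e : ω (i + 1) = ω i + 1 := by linarith
    rw [e]
    linarith

lemma ex_between {a b u v : ℝ} (hu : 0 < u) (hv : 0 < v) (h : a * v < b * u) :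
    ∃ s, a < u * s ∧ v * s < b := by
  have h1 : a / u < b / v := by rwa [div_lt_div_iff₀ hu hv]
  obtain ⟨s, hs1, hs2⟩ := exists_between h1
  refine ⟨s, ?_, ?_⟩
  · rw [div_lt_iff₀ hu] at hs1; linarith
  · rw [lt_div_iff₀ hv] at hs2; linarith

lemma base (n : ℕ) :
    ∃ P V : (Fin (n + 2) → Bool) → Fin (n + 2) → ℝ, (∀ σ k, 0 < V σ k) ∧
      ∀ σ σ', σ 0 = true → σ' 0 = true → σ ≠ σ' → ∀ i, ∃ t : ℝ,
        P σ i < sg (σ i) * (sg (σ' i) * (P σ' i + V σ' i * t)) ∧
        sg (σ (i + 1)) * (sg (σ' (i + 1)) * (P σ' (i + 1) + V σ' (i + 1) * t)) < P σ (i + 1) := by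
  obtain ⟨τ, η, ν, h1, h2⟩ := hier2 n
  let R : ℝ → (Fin (n + 2) → Bool) → (Fin (n + 2) → Bool) → Fin (n + 2) → ℝ :=
    fun κ σ σ' i => (η σ (i + 1) - κ * η σ' (i + 1)) * ν σ' i - (η σ i - κ * η σ' i) * ν σ' (i + 1)
  have key : ∀ κ σ σ' i, 0 < D τ η ν κ σ σ' i →
      ∀ᶠ ε in 𝓝 (0 : ℝ), 0 < D τ η ν κ σ σ' i + ε * R κ σ σ' i := by
    intro κ σ σ' i h
    have hc : Continuous fun ε : ℝ => D τ η ν κ σ σ' i + ε * R κ σ σ' i := by fun_prop
    exact hc.continuousAt.eventually (lt_mem_nhds (by simpa using h))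
  have e1 : ∀ᶠ ε in 𝓝 (0 : ℝ), ∀ σ σ' i, σ ≠ σ' → σ i = σ' i →
      0 < D τ η ν 1 σ σ' i + ε * R 1 σ σ' i := by
    simp only [eventually_all]
    intro σ σ' i a b
    exact key 1 σ σ' i (h1 σ σ' i a b)
  have e2 : ∀ᶠ ε in 𝓝 (0 : ℝ), ∀ σ σ' i, i ≠ 0 →
      0 < D τ η ν (-1) σ σ' i + ε * R (-1) σ σ' i := by
    simp only [eventually_all]
    intro σ σ' i a
    exact key (-1) σ σ' i (h2 σ σ' i a)
  have e3 : ∀ᶠ ε in 𝓝 (0 : ℝ), ∀ σ k, 0 < 1 + ε * ν σ k := by
    simp only [eventually_all]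
    intro σ k
    have hc : Continuous fun ε : ℝ => 1 + ε * ν σ k := by fun_prop
    exact hc.continuousAt.eventually (lt_mem_nhds (by simp))
  obtain ⟨ε, ⟨⟨f1, f2⟩, f3⟩, hε⟩ := ((((e1.and e2).and e3).filter_mono nhdsWithin_le_nhds).and
      (self_mem_nhdsWithin : Set.Ioi (0 : ℝ) ∈ 𝓝[>] (0 : ℝ))).exists
  have hε' : 0 < ε := hε
  refine ⟨fun σ k => τ σ + ε * η σ k, fun σ k => 1 + ε * ν σ k, f3, ?_⟩
  intro σ σ' h0 h0' hne i
  have gen : ∀ κ : ℝ, 0 < D τ η ν κ σ σ' i + ε * R κ σ σ' i → ∃ s : ℝ,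
      (τ σ + ε * η σ i) - κ * (τ σ' + ε * η σ' i) < (1 + ε * ν σ' i) * s ∧
      (1 + ε * ν σ' (i + 1)) * s <
        (τ σ + ε * η σ (i + 1)) - κ * (τ σ' + ε * η σ' (i + 1)) := by
    intro κ h
    apply ex_between (f3 σ' i) (f3 σ' (i + 1))
    have h' := mul_pos hε' h
    simp only [D, R] at h'
    nlinarith [h']
  have hu := f3 σ' i
  have hv := f3 σ' (i + 1)
  by_cases a : σ i = σ' i <;> by_cases b : σ (i + 1) = σ' (i + 1)
  · obtain ⟨s, s1, s2⟩ := gen 1 (f1 σ σ' i hne a)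
    refine ⟨s, ?_, ?_⟩
    · rw [← a, ← mul_assoc, sg_mul_self]; linarith
    · rw [← b, ← mul_assoc, sg_mul_self]; linarith
  · obtain ⟨t, ht1, ht2⟩ : ∃ t : ℝ, (τ σ + ε * η σ i) - (τ σ' + ε * η σ' i) < (1 + ε * ν σ' i) * t ∧
        -(τ σ + ε * η σ (i + 1)) - (τ σ' + ε * η σ' (i + 1)) < (1 + ε * ν σ' (i + 1)) * t := by
      have t1 := (tendsto_id.const_mul_atTop hu).eventually
        (eventually_gt_atTop ((τ σ + ε * η σ i) - (τ σ' + ε * η σ' i)))
      have t2 := (tendsto_id.const_mul_atTop hv).eventually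
        (eventually_gt_atTop (-(τ σ + ε * η σ (i + 1)) - (τ σ' + ε * η σ' (i + 1))))
      exact (t1.and t2).exists
    refine ⟨t, ?_, ?_⟩
    · rw [← a, ← mul_assoc, sg_mul_self]; linarith
    · rw [sg_ne b, ← mul_assoc, mul_neg, sg_mul_self]; linarith
  · obtain ⟨t, ht1, ht2⟩ : ∃ t : ℝ, (τ σ + ε * η σ i) + (τ σ' + ε * η σ' i) < (1 + ε * ν σ' i) * t ∧
        -(τ σ + ε * η σ (i + 1)) + (τ σ' + ε * η σ' (i + 1)) < (1 + ε * ν σ' (i + 1)) * t := by
      have t1 := (tendsto_id.const_mul_atTop hu).eventually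
        (eventually_gt_atTop ((τ σ + ε * η σ i) + (τ σ' + ε * η σ' i)))
      have t2 := (tendsto_id.const_mul_atTop hv).eventually
        (eventually_gt_atTop (-(τ σ + ε * η σ (i + 1)) + (τ σ' + ε * η σ' (i + 1))))
      exact (t1.and t2).exists
    refine ⟨-t, ?_, ?_⟩
    · rw [sg_ne a, ← mul_assoc, mul_neg, sg_mul_self]; linarith
    · rw [← b, ← mul_assoc, sg_mul_self]; linarith
  · have hi : i ≠ 0 := by rintro rfl; exact a (h0.trans h0'.symm)
    obtain ⟨s, s1, s2⟩ := gen (-1) (f2 σ σ' i hi)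
    refine ⟨-s, ?_, ?_⟩
    · rw [sg_ne a, ← mul_assoc, mul_neg, sg_mul_self]; linarith
    · rw [sg_ne b, ← mul_assoc, mul_neg, sg_mul_self]; linarith

/-- index of the boxes in one group -/
abbrev J (n : ℕ) := Option (Fin (n + 1) × Bool)

def src {n : ℕ} : J n → Fin (n + 2)
  | none => Fin.last (n + 1)
  | some (i, _) => i.castSucc

def E {n : ℕ} : J n → ℝ
  | none => 0
  | some (_, b) => sg b

noncomputable def mm {n : ℕ} : J n → Fin (n + 2) → ℝ → ℝ
  | none, _, _ => 1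
  | some (i, b), k, δ => if k.val ≤ i.val then 1 else 1 + sg b * (2 * (n + 2)) * δ

noncomputable def cc {n : ℕ} : J n → Fin (n + 2) → ℝ → ℝ
  | none, k, δ => - (k.val : ℝ) * δ ^ 2
  | some (i, _), k, δ => if k.val ≤ i.val then - (k.val : ℝ) * δ ^ 2 else
      ((n + 2) - (k.val : ℝ)) * δ ^ 2

lemma mm_cont {n : ℕ} (j : J n) (k : Fin (n + 2)) : Continuous (mm j k) ∧ mm j k 0 = 1 := by
  rcases j with _ | ⟨i, b⟩
  · exact ⟨continuous_const, rfl⟩
  · by_cases h : k.val ≤ i.val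
    · have : mm (some (i, b)) k = fun _ => 1 := by funext δ; simp [mm, h]
      rw [this]; exact ⟨continuous_const, rfl⟩
    · have : mm (some (i, b)) k = fun δ => 1 + sg b * (2 * (n + 2)) * δ := by
        funext δ; simp [mm, h]
      rw [this]; exact ⟨by fun_prop, by simp⟩

lemma cc_cont {n : ℕ} (j : J n) (k : Fin (n + 2)) : Continuous (cc j k) ∧ cc j k 0 = 0 := by
  rcases j with _ | ⟨i, b⟩
  · have : cc (none : J n) k = fun δ => - (k.val : ℝ) * δ ^ 2 := by funext δ; simp [cc]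
    rw [this]; exact ⟨by fun_prop, by simp⟩
  · by_cases h : k.val ≤ i.val
    · have : cc (some (i, b)) k = fun δ => - (k.val : ℝ) * δ ^ 2 := by funext δ; simp [cc, h]
      rw [this]; exact ⟨by fun_prop, by simp⟩
    · have : cc (some (i, b)) k = fun δ => ((n + 2) - (k.val : ℝ)) * δ ^ 2 := by
        funext δ; simp [cc, h]
      rw [this]; exact ⟨by fun_prop, by simp⟩

lemma castSucc_add_one_val {n : ℕ} (i : Fin (n + 1)) :
    ((i.castSucc : Fin (n + 2)) + 1).val = i.val + 1 := by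
  rw [Fin.coeSucc_eq_succ]; rfl

lemma zlines {n : ℕ} {δ : ℝ} (h0 : 0 < δ) (h1 : 4 * (n + 2) * δ ≤ 1) (j0 j : J n) (hj : j ≠ j0) :
    ∃ t : ℝ, E j * δ + δ ^ 2 ≤ mm j0 (src j) δ * t + cc j0 (src j) δ ∧
      mm j0 (src j + 1) δ * t + cc j0 (src j + 1) δ ≤ E j * δ := by
  rcases j0 with _ | ⟨i0, b0⟩
  · rcases j with _ | ⟨i, b⟩
    · exact absurd rfl hj
    · refine ⟨sg b * δ + (i.val + 1) * δ ^ 2, ?_, ?_⟩
      · simp only [E, mm, cc, src, Fin.val_castSucc]; linarith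
      · simp only [E, mm, cc, src, castSucc_add_one_val]; push_cast; linarith
  · rcases j with _ | ⟨i, b⟩
    · refine ⟨0, ?_, ?_⟩
      · have : ¬ (n + 1 ≤ i0.val) := by have := i0.isLt; omega
        simp only [E, mm, cc, src, Fin.val_last, this, if_false]; push_cast; linarith
      · simp [E, mm, cc, src]
    · rcases lt_trichotomy i.val i0.val with h | h | h
      · refine ⟨sg b * δ + (i.val + 1) * δ ^ 2, ?_, ?_⟩
        · have : i.val ≤ i0.val := h.le
          simp only [E, mm, cc, src, Fin.val_castSucc, this, if_true]; linarith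
        · have : i.val + 1 ≤ i0.val := h
          simp only [E, mm, cc, src, castSucc_add_one_val, this, if_true]; push_cast; linarith
      · have hi : i = i0 := Fin.ext h
        subst hi
        have hb : b0 ≠ b := by rintro rfl; exact hj rfl
        have hs := sg_ne hb
        have hss := sg_mul_self b0
        refine ⟨sg b * δ + (i.val + 1) * δ ^ 2, ?_, ?_⟩
        · simp only [E, mm, cc, src, Fin.val_castSucc, le_refl, if_true]; linarith
        · have : ¬ (i.val + 1 ≤ i.val) := by omega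
          simp only [E, mm, cc, src, castSucc_add_one_val, this, if_false, hs]
          push_cast
          have hi1 : ((i.val : ℝ) + 1) ≤ n + 2 := by
            have : i.val + 1 ≤ n + 2 := by have := i.isLt; omega
            exact_mod_cast this
          have hi0 : (0 : ℝ) ≤ (i.val : ℝ) + 1 := by positivity
          have hsb : sg b0 ≤ 1 := by cases b0 <;> simp [sg]
          have hn : (0 : ℝ) < n + 2 := by positivity
          have k1 : sg b0 * ((i.val : ℝ) + 1) ≤ n + 2 := by nlinarith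
          have k2 : sg b0 * ((i.val : ℝ) + 1) * δ ≤ 1 / 4 := by nlinarith
          have k3 : 0 ≤ (n + 2) * δ ^ 2 * (1 / 2 - sg b0 * ((i.val : ℝ) + 1) * δ) := by
            apply mul_nonneg (by positivity); linarith
          have k4 : (1 + sg b0 * (2 * (n + 2)) * δ) * (-sg b0 * δ + (i.val + 1) * δ ^ 2) +
              ((n + 2) - ((i.val : ℝ) + 1)) * δ ^ 2 - (-sg b0 * δ) =
              -2 * ((n + 2) * δ ^ 2 * (1 / 2 - sg b0 * ((i.val : ℝ) + 1) * δ)) := by
            linear_combination (-(2 * (n + 2)) * δ ^ 2) * hss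
          linarith
      · have hm : 0 < 1 + sg b0 * (2 * (n + 2)) * δ := by
          have hsb : -1 ≤ sg b0 := by cases b0 <;> simp [sg]
          have hn : (0 : ℝ) < (n + 2) * δ := by positivity
          nlinarith
        refine ⟨(sg b * δ - ((n + 2) - ((i.val : ℝ) + 1)) * δ ^ 2) /
          (1 + sg b0 * (2 * (n + 2)) * δ), ?_, ?_⟩
        · have : ¬ (i.val ≤ i0.val) := by omega
          simp only [E, mm, cc, src, Fin.val_castSucc, this, if_false]
          rw [mul_div_cancel₀ _ hm.ne']; linarith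
        · have : ¬ (i.val + 1 ≤ i0.val) := by omega
          simp only [E, mm, cc, src, castSucc_add_one_val, this, if_false]
          rw [mul_div_cancel₀ _ hm.ne']; push_cast; linarith

end Pool.Agent.H973Z.Santalo
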