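import Mathlib
import Pool.Agent.H973Z.Santalo

set_option autoImplicit false

open Filter Topology

namespace Pool.Agent.H973Z.Santalo

/-- the class with first sign positive attached to `c` -/
def cls {n : ℕ} (c : Fin (n + 1) → Bool) : Fin (n + 2) → Bool := Fin.cons true c

lemma cls_zero {n : ℕ} (c : Fin (n + 1) → Bool) : cls c 0 = true := rfl

lemma cls_inj {n : ℕ} {c c' : Fin (n + 1) → Bool} (h : cls c = cls c') : c = c' := by
  funext i
  have := congrFun h i.succ
  simpa [cls] using this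

/-- index set of the whole family -/
abbrev I (n : ℕ) := (Fin (n + 1) → Bool) × J n

lemma card_I (n : ℕ) : Fintype.card (I n) = 2 ^ (n + 1) * (2 * (n + 2) - 1) := by
  simp only [I, J, Fintype.card_prod, Fintype.card_pi, Fintype.card_bool, Finset.prod_const,
    Finset.card_univ, Fintype.card_fin, Fintype.card_option]
  congr 1
  omega

/-- Quadrant version: corners `lo`, `hi`. -/
lemma quad (n : ℕ) : ∃ lo hi : I n → ℝ,
    (∀ z0 : I n, ∃ p v : Fin (n + 2) → ℝ, v ≠ 0 ∧ ∀ z : I n, z ≠ z0 → ∃ t : ℝ,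
      lo z ≤ sg (cls z.1 (src z.2)) * (p + t • v) (src z.2) ∧
      sg (cls z.1 (src z.2 + 1)) * (p + t • v) (src z.2 + 1) ≤ hi z) ∧
    (∀ p v : Fin (n + 2) → ℝ, ¬ ∀ z : I n, ∃ t : ℝ,
      lo z ≤ sg (cls z.1 (src z.2)) * (p + t • v) (src z.2) ∧
      sg (cls z.1 (src z.2 + 1)) * (p + t • v) (src z.2 + 1) ≤ hi z) := by
  obtain ⟨P, V, hV, hb⟩ := base n
  have e1 : ∀ᶠ δ in 𝓝 (0 : ℝ), ∀ (c c' : Fin (n + 1) → Bool) (j j0 : J n), c ≠ c' → ∃ t : ℝ,
      P (cls c) (src j) + V (cls c) (src j) * (E j * δ + δ ^ 2) ≤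
        sg (cls c (src j)) * (sg (cls c' (src j)) * (P (cls c') (src j) + V (cls c') (src j) *
          (mm j0 (src j) δ * t + cc j0 (src j) δ))) ∧
      sg (cls c (src j + 1)) * (sg (cls c' (src j + 1)) * (P (cls c') (src j + 1) +
          V (cls c') (src j + 1) * (mm j0 (src j + 1) δ * t + cc j0 (src j + 1) δ))) ≤
        P (cls c) (src j + 1) + V (cls c) (src j + 1) * (E j * δ) := by
    simp only [eventually_all]
    intro c c' j j0 hc
    obtain ⟨t, t1, t2⟩ := hb (cls c) (cls c') rfl rfl (fun h => hc (cls_inj h)) (src j)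
    obtain ⟨m1, m2⟩ := mm_cont j0 (src j)
    obtain ⟨m3, m4⟩ := mm_cont j0 (src j + 1)
    obtain ⟨c1, c2⟩ := cc_cont j0 (src j)
    obtain ⟨c3, c4⟩ := cc_cont j0 (src j + 1)
    have g1 : ∀ᶠ δ in 𝓝 (0 : ℝ), P (cls c) (src j) + V (cls c) (src j) * (E j * δ + δ ^ 2) <
        sg (cls c (src j)) * (sg (cls c' (src j)) * (P (cls c') (src j) + V (cls c') (src j) *
          (mm j0 (src j) δ * t + cc j0 (src j) δ))) := by
      apply ContinuousAt.eventually_lt (by fun_prop) (by fun_prop)
      simpa [m2, c2] using t1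
    have g2 : ∀ᶠ δ in 𝓝 (0 : ℝ), sg (cls c (src j + 1)) * (sg (cls c' (src j + 1)) *
        (P (cls c') (src j + 1) +
          V (cls c') (src j + 1) * (mm j0 (src j + 1) δ * t + cc j0 (src j + 1) δ))) <
        P (cls c) (src j + 1) + V (cls c) (src j + 1) * (E j * δ) := by
      apply ContinuousAt.eventually_lt (by fun_prop) (by fun_prop)
      simpa [m4, c4] using t2
    filter_upwards [g1, g2] with δ a b
    exact ⟨t, a.le, b.le⟩
  have e2 : ∀ᶠ δ in 𝓝 (0 : ℝ), 4 * ((n : ℝ) + 2) * δ < 1 := by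
    apply ContinuousAt.eventually_lt (by fun_prop) (by fun_prop)
    simp
  have e3 : ∀ᶠ δ in 𝓝 (0 : ℝ), ∀ j0 : J n, 0 < mm j0 0 δ := by
    simp only [eventually_all]
    intro j0
    obtain ⟨m1, m2⟩ := mm_cont j0 (0 : Fin (n + 2))
    exact m1.continuousAt.eventually (lt_mem_nhds (by simp [m2]))
  obtain ⟨δ, ⟨⟨f1, f2⟩, f3⟩, hδ⟩ := ((((e1.and e2).and e3).filter_mono nhdsWithin_le_nhds).and
      (self_mem_nhdsWithin : Set.Ioi (0 : ℝ) ∈ 𝓝[>] (0 : ℝ))).exists
  have hδ' : 0 < δ := hδ
  refine ⟨fun z => P (cls z.1) (src z.2) + V (cls z.1) (src z.2) * (E z.2 * δ + δ ^ 2),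
    fun z => P (cls z.1) (src z.2 + 1) + V (cls z.1) (src z.2 + 1) * (E z.2 * δ), ?_, ?_⟩
  · rintro ⟨c', j0⟩
    refine ⟨fun k => sg (cls c' k) * (P (cls c') k + V (cls c') k * cc j0 k δ),
      fun k => sg (cls c' k) * (V (cls c') k * mm j0 k δ), ?_, ?_⟩
    · intro h
      have h0 := congrFun h 0
      have := mul_pos (hV (cls c') 0) (f3 j0)
      simp only [cls_zero, sg, if_true, one_mul, Pi.zero_apply] at h0
      linarith
    · rintro ⟨c, j⟩ hz
      have pt : ∀ (t : ℝ) (k : Fin (n + 2)),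
          ((fun k => sg (cls c' k) * (P (cls c') k + V (cls c') k * cc j0 k δ)) +
            t • (fun k => sg (cls c' k) * (V (cls c') k * mm j0 k δ)) : Fin (n + 2) → ℝ) k =
          sg (cls c' k) * (P (cls c') k + V (cls c') k * (mm j0 k δ * t + cc j0 k δ)) := by
        intro t k
        simp only [Pi.add_apply, Pi.smul_apply, smul_eq_mul]
        ring
      by_cases hc : c = c'
      · subst hc
        have hj : j ≠ j0 := by rintro rfl; exact hz rfl
        obtain ⟨t, t1, t2⟩ := zlines hδ' f2.le j0 j hj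
        refine ⟨t, ?_, ?_⟩
        · simp only [pt]
          rw [← mul_assoc, sg_mul_self, one_mul]
          have := mul_le_mul_of_nonneg_left t1 (hV (cls c) (src j)).le
          linarith
        · simp only [pt]
          rw [← mul_assoc, sg_mul_self, one_mul]
          have := mul_le_mul_of_nonneg_left t2 (hV (cls c) (src j + 1)).le
          linarith
      · obtain ⟨t, t1, t2⟩ := f1 c c' j j0 hc
        exact ⟨t, by simpa only [pt] using t1, by simpa only [pt] using t2⟩
  · have main : ∀ p v : Fin (n + 2) → ℝ, 0 ≤ v 0 → ¬ ∀ z : I n, ∃ t : ℝ,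
        P (cls z.1) (src z.2) + V (cls z.1) (src z.2) * (E z.2 * δ + δ ^ 2) ≤
          sg (cls z.1 (src z.2)) * (p + t • v) (src z.2) ∧
        sg (cls z.1 (src z.2 + 1)) * (p + t • v) (src z.2 + 1) ≤
          P (cls z.1) (src z.2 + 1) + V (cls z.1) (src z.2 + 1) * (E z.2 * δ) := by
      intro p v hv h
      let c : Fin (n + 1) → Bool := fun i => decide (0 ≤ v i.succ)
      have hmono : ∀ k, 0 ≤ sg (cls c k) * v k := by
        intro k
        refine Fin.cases ?_ (fun i => ?_) k
        · simpa [cls_zero, sg] using hv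
        · by_cases hi : 0 ≤ v i.succ
          · simpa [cls, c, sg, hi] using hi
          · have : v i.succ ≤ 0 := (not_le.mp hi).le
            simpa [cls, c, sg, hi] using this
      have hs : ∀ i : Fin (n + 2), ∃ s : ℝ,
          P (cls c) i + V (cls c) i * δ ^ 2 ≤ sg (cls c i) * (p i + s * v i) ∧
          sg (cls c (i + 1)) * (p (i + 1) + s * v (i + 1)) ≤ P (cls c) (i + 1) := by
        intro i
        refine Fin.lastCases ?_ (fun i => ?_) i
        · obtain ⟨t, t1, t2⟩ := h (c, none)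
          refine ⟨t, ?_, ?_⟩
          · simpa [src, E] using t1
          · simpa [src, E] using t2
        · obtain ⟨t, t1, t2⟩ := h (c, some (i, true))
          obtain ⟨u, u1, u2⟩ := h (c, some (i, false))
          have s1 : sg true = 1 := by simp [sg]
          have s2 : sg false = -1 := by simp [sg]
          simp only [src, E, s1, s2, Pi.add_apply,
            Pi.smul_apply, smul_eq_mul] at t1 t2 u1 u2
          refine ⟨(t + u) / 2, ?_, ?_⟩
          · linear_combination (1 / 2 : ℝ) * t1 + (1 / 2 : ℝ) * u1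
          · linear_combination (1 / 2 : ℝ) * t2 + (1 / 2 : ℝ) * u2
      choose s hs1 hs2 using hs
      obtain ⟨i, hi⟩ := Finite.exists_max s
      have a1 := hs2 i
      have a2 := hs1 (i + 1)
      have a3 := hi (i + 1)
      have a4 := hmono (i + 1)
      have a5 : 0 < V (cls c) (i + 1) * δ ^ 2 := mul_pos (hV _ _) (by positivity)
      have a6 : 0 ≤ (s i - s (i + 1)) * (sg (cls c (i + 1)) * v (i + 1)) :=
        mul_nonneg (by linarith) a4
      nlinarith
    intro p v h
    rcases le_total 0 (v 0) with hv | hv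
    · exact main p v hv h
    · refine main p (-v) (by simpa using hv) ?_
      intro z
      obtain ⟨t, ht⟩ := h z
      refine ⟨-t, ?_⟩
      simpa using ht

lemma succ_ne_self {n : ℕ} (i : Fin (n + 2)) : i + 1 ≠ i := by
  intro h
  simp at h

/-- Box version. -/
lemma boxes (n : ℕ) : ∃ a b : I n → Fin (n + 2) → ℝ, (∀ z k, a z k < b z k) ∧
    (∀ z0 : I n, ∃ p v : Fin (n + 2) → ℝ, v ≠ 0 ∧ ∀ z : I n, z ≠ z0 → ∃ t : ℝ,
      ∀ k, a z k ≤ (p + t • v) k ∧ (p + t • v) k ≤ b z k) ∧
    (∀ p v : Fin (n + 2) → ℝ, ¬ ∀ z : I n, ∃ t : ℝ,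
      ∀ k, a z k ≤ (p + t • v) k ∧ (p + t • v) k ≤ b z k) := by
  classical
  obtain ⟨lo, hi, h1, h2⟩ := quad n
  choose p v hv ht using h1
  choose! t ht1 ht2 using ht
  have e1 : ∀ᶠ R in (atTop : Filter ℝ), ∀ z0 z k, |(p z0 + t z0 z • v z0) k| ≤ R := by
    simp only [eventually_all]
    intro z0 z k
    exact eventually_ge_atTop _
  have e2 : ∀ᶠ R in (atTop : Filter ℝ), ∀ z, |lo z| < R ∧ |hi z| < R := by
    simp only [eventually_all]
    intro z
    exact (eventually_gt_atTop _).and (eventually_gt_atTop _)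
  obtain ⟨R, ⟨f1, f2⟩, f3⟩ := ((e1.and e2).and (eventually_gt_atTop 0)).exists
  let l : I n → Fin (n + 2) → ℝ := fun z k => if k = src z.2 then lo z else -R
  let u : I n → Fin (n + 2) → ℝ := fun z k => if k = src z.2 + 1 then hi z else R
  have hlu : ∀ z k, l z k < u z k := by
    intro z k
    obtain ⟨g1, g2⟩ := f2 z
    rw [abs_lt] at g1 g2
    by_cases a : k = src z.2
    · have b : k ≠ src z.2 + 1 := by rw [a]; exact (succ_ne_self _).symm
      simp only [l, u, if_pos a, if_neg b]; exact g1.2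
    · by_cases b : k = src z.2 + 1
      · simp only [l, u, if_neg a, if_pos b]; exact g2.1
      · simp only [l, u, if_neg a, if_neg b]; linarith
  let a : I n → Fin (n + 2) → ℝ := fun z k => if cls z.1 k then l z k else - u z k
  let b : I n → Fin (n + 2) → ℝ := fun z k => if cls z.1 k then u z k else - l z k
  have hab : ∀ z k (x : ℝ), (a z k ≤ x ∧ x ≤ b z k) ↔
      (l z k ≤ sg (cls z.1 k) * x ∧ sg (cls z.1 k) * x ≤ u z k) := by
    intro z k x
    cases h : cls z.1 k
    · simp only [a, b, h, sg, Bool.false_eq_true, if_false]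
      constructor <;> rintro ⟨x1, x2⟩ <;> constructor <;> linarith
    · simp only [a, b, h, sg, if_true, one_mul]
  refine ⟨a, b, ?_, ?_, ?_⟩
  · intro z k
    have := hlu z k
    cases h : cls z.1 k
    · simp only [a, b, h, Bool.false_eq_true, if_false]; linarith
    · simp only [a, b, h, if_true]; exact this
  · intro z0
    refine ⟨p z0, v z0, hv z0, fun z hz => ⟨t z0 z, fun k => ?_⟩⟩
    rw [hab]
    have g := f1 z0 z k
    have g' : |sg (cls z.1 k) * (p z0 + t z0 z • v z0) k| ≤ R := by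
      rw [abs_mul]
      have : |sg (cls z.1 k)| = 1 := by cases cls z.1 k <;> simp [sg]
      rw [this, one_mul]; exact g
    rw [abs_le] at g'
    constructor
    · by_cases c : k = src z.2
      · simp only [l, if_pos c]; rw [c]; exact ht1 z0 z hz
      · simp only [l, if_neg c]; exact g'.1
    · by_cases c : k = src z.2 + 1
      · simp only [u, if_pos c]; rw [c]; exact ht2 z0 z hz
      · simp only [u, if_neg c]; exact g'.2
  · intro p v h
    apply h2 p v
    intro z
    obtain ⟨t, ht⟩ := h z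
    refine ⟨t, ?_, ?_⟩
    · have := ((hab z _ _).mp (ht (src z.2))).1
      simpa only [l, if_true] using this
    · have := ((hab z _ _).mp (ht (src z.2 + 1))).2
      simpa only [u, if_true] using this

end Pool.Agent.H973Z.Santalo
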